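import Pool.Agent.H28.VecMat

set_option autoImplicit false

namespace Pool.Agent.Results.MP_0dc42e_co.Explore

open Finset Module

variable {α : Type} [Fintype α]

/-- `M` is a binary matroid on the ground set `α`. -/
def IsBinary (M : Matroid α) : Prop :=
  ∃ (n : ℕ) (φ : α → Fin n → ZMod 2), ∀ I, M.Indep I ↔ LinearIndepOn (ZMod 2) φ I

/-- The cocycle space: the span of the indicator vectors of the cocircuits. -/
def cocycleSpace (M : Matroid α) : Submodule (ZMod 2) (α → ZMod 2) :=
  Submodule.span (ZMod 2) {w | ∃ K, M.IsCocircuit K ∧ w = K.indicator 1}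

/-- The least `L` such that the cocycle space has a basis whose members have at most `L` elements. -/
noncomputable def lam (M : Matroid α) : ℕ :=
  sInf {L | ∃ B : Set (α → ZMod 2), LinearIndepOn (ZMod 2) id B ∧
    Submodule.span (ZMod 2) B = cocycleSpace M ∧ ∀ w ∈ B, (Function.support w).ncard ≤ L}

/-- Every two elements of `S` lie in a common circuit of `M|S`. -/
def Conn (M : Matroid α) (S : Set α) : Prop :=
  ∀ x ∈ S, ∀ y ∈ S, x ≠ y → ∃ C, (M.restrict S).IsCircuit C ∧ x ∈ C ∧ y ∈ C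

/-- The number of `k`-element sets `S ∋ e` with `M|S` connected. -/
noncomputable def N (M : Matroid α) (e : α) (k : ℕ) : ℕ :=
  {S : Set α | e ∈ S ∧ S.ncard = k ∧ Conn M S}.ncard

open Classical in
noncomputable def fam (M : Matroid α) (k : ℕ) (T : Finset α) (U : Submodule (ZMod 2) (α → ZMod 2)) :
    Finset (Finset α) :=
  {S | T ⊆ S ∧ #S = k ∧ (∀ x ∈ S, ∀ y ∈ S, x ≠ y → ∃ C ⊆ S, M.IsCircuit ↑C ∧ x ∈ C ∧ y ∈ C) ∧
    ∀ u ∈ U, ∀ C ⊆ S, M.IsCircuit ↑C → ∑ x ∈ C, u x = 0}

omit [Fintype α] in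
lemma rk_le {T : Finset α} {U : Submodule (ZMod 2) (α → ZMod 2)} (h : ∀ u ∈ U, ∀ x ∉ T, u x = 0) :
    finrank (ZMod 2) U ≤ #T := by
  have := LinearMap.finrank_le_finrank_of_injective
    (f := (LinearMap.funLeft (ZMod 2) (ZMod 2) (Subtype.val : T → α)).comp U.subtype) fun u v e => by
      ext x
      by_cases hx : x ∈ T
      · exact congrFun e ⟨x, hx⟩
      · rw [h _ u.2 x hx, h _ v.2 x hx]
  simpa using this

lemma explore (M : Matroid α) (B : Set (α → ZMod 2)) (L k : ℕ)
    (h1 : ∀ w ∈ B, (Function.support w).ncard ≤ L)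
    (h2 : ∀ w ∈ B, ∀ C : Finset α, M.IsCircuit ↑C → ∑ x ∈ C, w x = 0)
    (h3 : ∀ D : Finset α, M.Indep ↑D → D.Nonempty → ∃ w ∈ B, ∑ x ∈ D, w x ≠ 0) (j : ℕ) :
    ∀ (T : Finset α) (U : Submodule (ZMod 2) (α → ZMod 2)), T.Nonempty →
      (∀ u ∈ U, ∀ x ∉ T, u x = 0) → k < finrank (ZMod 2) U + j → #(fam M k T U) ≤ (2 ^ L) ^ (j - 1) := by
  classical
  induction j with
  | zero =>
    intro T U _ hU hk
    rw [card_eq_zero.2 (eq_empty_of_forall_notMem fun S hS => ?_)]
    · simp
    simp only [fam, mem_filter, mem_univ, true_and] at hS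
    have := card_le_card hS.1
    have := rk_le hU
    omega
  | succ j ih =>
  intro T U hT hU hk
  by_cases hr : ∀ r ∈ B, (fun x => if x ∈ T then r x else 0) ∈ U
  · refine (card_le_one.2 fun S hS S' hS' => ?_).trans (Nat.one_le_pow _ _ (by positivity))
    suffices ∀ S ∈ fam M k T U, S = T by rw [this S hS, this S' hS']
    intro S hS
    simp only [fam, mem_filter, mem_univ, true_and] at hS
    obtain ⟨t, ht⟩ := hT
    refine (subset_antisymm hS.1 fun x hx => by_contra fun hxT => ?_).symm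
    obtain ⟨C, hCS, hC, htC, hxC⟩ := hS.2.2.1 t (hS.1 ht) x hx fun e => hxT (e ▸ ht)
    obtain ⟨w, hw, h0⟩ := h3 (C ∩ T) (hC.ssubset_indep (coe_ssubset.2 ⟨inter_subset_left,
      fun h => hxT (mem_inter.1 (h hxC)).2⟩)) ⟨t, mem_inter.2 ⟨htC, ht⟩⟩
    exact h0 (by simpa using hS.2.2.2 _ (hr w hw) C hCS hC)
  push Not at hr
  obtain ⟨r, hrB, hr⟩ := hr
  let u : Finset α → α → ZMod 2 := fun A x => if x ∈ A then r x else 0
  have hsub : fam M k T U ⊆ ((Function.support r).toFinset.powerset.filter fun A => u A ∉ U).biUnion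
      fun A => fam M k (T ∪ A) (U ⊔ Submodule.span (ZMod 2) {u A}) := fun S hS => by
    simp only [fam, mem_filter, mem_univ, true_and, mem_biUnion, mem_powerset] at hS ⊢
    have e : ∀ x ∈ S, u (S ∩ (Function.support r).toFinset) x = r x := fun x hx => by
      by_cases h : r x = 0 <;> simp [u, hx, h]
    refine ⟨S ∩ _, ⟨inter_subset_right, fun h => hr ?_⟩, union_subset hS.1 inter_subset_left, hS.2.1,
      hS.2.2.1, fun v hv C hCS hC => ?_⟩
    · refine (congrArg (· ∈ U) (funext fun x => ?_)).mpr h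
      split_ifs with hx
      · exact (e x (hS.1 hx)).symm
      · exact (hU _ h x hx).symm
    · obtain ⟨a, ha, b, hb, rfl⟩ := Submodule.mem_sup.1 hv
      obtain ⟨c, rfl⟩ := Submodule.mem_span_singleton.1 hb
      simp only [Pi.add_apply, Pi.smul_apply, sum_add_distrib, ← smul_sum, hS.2.2.2 a ha C hCS hC]
      rw [sum_congr rfl fun x hx => e x (hCS hx), h2 r hrB C hC]
      simp
  have hc : ∀ A ∈ (Function.support r).toFinset.powerset.filter fun A => u A ∉ U,
      finrank (ZMod 2) U < finrank (ZMod 2) (U ⊔ Submodule.span (ZMod 2) {u A} :) ∧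
      ∀ v ∈ U ⊔ Submodule.span (ZMod 2) {u A}, ∀ x ∉ T ∪ A, v x = 0 := fun A hA => by
    refine ⟨Submodule.finrank_lt_finrank_of_lt (left_lt_sup.2 (by simpa using (mem_filter.1 hA).2)),
      fun v hv x hx => ?_⟩
    obtain ⟨a, ha, b, hb, rfl⟩ := Submodule.mem_sup.1 hv
    obtain ⟨c, rfl⟩ := Submodule.mem_span_singleton.1 hb
    rw [mem_union, not_or] at hx
    simp [hU a ha x hx.1, u, hx.2]
  rcases j.eq_zero_or_pos with rfl | hj
  · rw [card_eq_zero.2 (eq_empty_of_forall_notMem fun S hS => ?_)]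
    · simp
    obtain ⟨A, hA, hS⟩ := mem_biUnion.1 (hsub hS)
    simp only [fam, mem_filter, mem_univ, true_and] at hS
    have := card_le_card hS.1
    have := rk_le (hc A hA).2
    have := (hc A hA).1
    omega
  refine (card_le_card hsub).trans ((card_biUnion_le_card_mul _ _ ((2 ^ L) ^ (j - 1)) fun A hA =>
    ih _ _ (hT.mono subset_union_left) (hc A hA).2 (by have := (hc A hA).1; omega)).trans ?_)
  rw [show j + 1 - 1 = j - 1 + 1 by omega, pow_succ']
  refine Nat.mul_le_mul_right _ ((card_filter_le _ _).trans ?_)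
  rw [card_powerset, ← Set.ncard_eq_toFinset_card']
  exact Nat.pow_le_pow_right (by norm_num) (h1 r hrB)

lemma orth {M : Matroid α} (hE : M.E = Set.univ) (h : IsBinary M) {C : Finset α} (hC : M.IsCircuit ↑C)
    {w : α → ZMod 2} (hw : w ∈ cocycleSpace M) : ∑ x ∈ C, w x = 0 := by
  obtain ⟨n, φ, h⟩ := h
  have one : ∀ a : ZMod 2, a ≠ 0 → a = 1 := by decide
  have h0 : ∑ x ∈ C, φ x = 0 := by
    have := hC.not_indep
    rw [h, linearIndepOn_iff] at this
    push Not at this
    obtain ⟨l, h1, h2, h3⟩ := this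
    have : (l.support : Set α) = C := hC.eq_of_not_indep_subset (by
      rw [h, linearIndepOn_iff]; exact fun h => h3 (h l (by simp [Finsupp.mem_supported]) h2)) h1
    rw [← coe_injective this, ← h2, Finsupp.linearCombination_apply, Finsupp.sum]
    exact sum_congr rfl fun x hx => by rw [one _ (Finsupp.mem_support_iff.1 hx), one_smul]
  have hcl := fun X e => Pool.Agent.H28.VecMat.mem_closure_iff_of_rep (M := M) (φ := φ) (F := ZMod 2)
    (fun I => by simp [h, hE]) (X := X) (e := e) (by simp [hE])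
  induction hw using Submodule.span_induction with
  | zero => simp
  | add a b _ _ ha hb => simp [sum_add_distrib, ha, hb]
  | smul c a _ ha => simp [← mul_sum, ha]
  | mem w hw =>
  obtain ⟨K, hK, rfl⟩ := hw
  rw [Matroid.isCocircuit_iff_minimal_compl_nonspanning] at hK
  have h1 := hK.prop
  rw [Matroid.spanning_iff_closure_eq (by simp [hE]), hE, Set.eq_univ_iff_forall] at h1
  push Not at h1
  obtain ⟨e, he⟩ := h1
  obtain ⟨f, hf, hk⟩ := Submodule.exists_le_ker_of_notMem
    (show φ e ∉ _ from fun h => he ((hcl _ _).2 ⟨h, by simp [hE]⟩))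
  have : ∀ x, K.indicator 1 x = f (φ x) := fun x => by
    by_cases hx : x ∈ K
    · rw [Set.indicator_of_mem hx, one (f (φ x)) fun h0 => hf ?_]
      · rfl
      have h2 := hK.not_prop_of_ssubset (Set.sdiff_singleton_ssubset.2 hx)
      rw [not_not, Matroid.spanning_iff_closure_eq (by simp [hE])] at h2
      refine (show Submodule.span _ _ ≤ LinearMap.ker f from Submodule.span_le.2 ?_)
        ((hcl _ e).1 (h2.symm.subset (by simp [hE]))).1
      rintro _ ⟨y, hy, rfl⟩
      by_cases hyx : y = x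
      · exact hyx ▸ h0
      · exact hk (Submodule.subset_span ⟨y, ⟨trivial, fun h => hy.2 ⟨h, hyx⟩⟩, rfl⟩)
    · rw [Set.indicator_of_notMem hx]
      exact (hk (Submodule.subset_span ⟨x, ⟨trivial, hx⟩, rfl⟩)).symm
  simp only [this, ← map_sum, h0, map_zero]

theorem result : ∃ C : ℕ → ℝ, (∀ L, 0 < C L) ∧ ∀ (α : Type) [Fintype α] (M : Matroid α),
    M.E = Set.univ → IsBinary M → ∀ (e : α) (k : ℕ), 1 ≤ k → (N M e k : ℝ) ≤ C (lam M) ^ k := by
  classical
  refine ⟨fun L => (2 : ℝ) ^ L, fun L => by positivity, fun α _ M hE hM e k _ => ?_⟩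
  obtain ⟨B, -, hB, h1⟩ : lam M ∈ _ := Nat.sInf_mem <| by
    obtain ⟨B, -, h1, h2⟩ := exists_linearIndependent (ZMod 2) (cocycleSpace M : Set (α → ZMod 2))
    exact ⟨Nat.card α, B, h2, by simpa using h1, fun w _ => Set.ncard_le_card _⟩
  have := explore M B _ k h1 (fun w hw C hC => orth hE hM hC (hB ▸ Submodule.subset_span hw))
    (fun D hD ⟨d, hd⟩ => by
      obtain ⟨K, hK, hKD⟩ := hD.exists_isCocircuit_inter_eq_mem hd
      by_contra hc
      push Not at hc
      have : ∀ w ∈ Submodule.span (ZMod 2) B, ∑ x ∈ D, w x = 0 := fun w hw => by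
        induction hw using Submodule.span_induction with
        | zero => simp
        | add a b _ _ ha hb => simp [sum_add_distrib, ha, hb]
        | smul c a _ ha => simp [← mul_sum, ha]
        | mem w hw => exact hc w hw
      have := this (K.indicator 1) (by rw [hB]; exact Submodule.subset_span ⟨K, hK, rfl⟩)
      rw [sum_eq_single_of_mem d hd fun x hx hne => Set.indicator_of_notMem
        (fun h => hne (hKD.subset ⟨h, hx⟩)) _, Set.indicator_of_mem (hKD.symm.subset rfl).1] at this
      simp at this)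
    (k + 1) {e} ⊥ (by simp) (by simp) (by omega)
  rw [Nat.add_sub_cancel] at this
  suffices h : N M e k ≤ #(fam M k {e} ⊥) by
    have := h.trans this
    simp only []
    exact_mod_cast this
  rw [N, ← Set.ncard_coe_finset, ← Set.ncard_image_of_injective _ coe_injective]
  refine Set.ncard_le_ncard fun S hS => ?_
  lift S to Finset α using S.toFinite
  refine ⟨S, ?_, rfl⟩
  simp only [fam, coe_filter, mem_univ, true_and]
  refine ⟨by simpa using hS.1, by simpa using hS.2.1, fun x hx y hy hne => ?_, by simp⟩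
  obtain ⟨C, hC, h⟩ := hS.2.2 x hx y hy hne
  lift C to Finset α using C.toFinite
  rw [Matroid.restrict_isCircuit_iff (by simp [hE])] at hC
  exact ⟨C, by simpa using hC.2, hC.1, h⟩

end Pool.Agent.Results.MP_0dc42e_co.Explore
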